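import Mathlib

namespace Pool.Agent.Results.MP_970e84_lc.NotDetermined

open FirstOrder FirstOrder.Language Filter

/-- A Fraïssé structure: countably infinite and ultrahomogeneous, in a countable relational
language. -/
def IsFraisseStr (L : FirstOrder.Language.{0, 0}) (M : Type) [L.Structure M] : Prop :=
  L.IsRelational ∧ Countable (Σ n, L.Relations n) ∧ Countable M ∧ Infinite M ∧
    L.IsUltrahomogeneous M

/-- A complete `n`-type over `M`: a complete set of formulas in `n` variables with parameters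
from `M` that is finitely satisfiable in `M`. -/
def IsType (L : FirstOrder.Language.{0, 0}) (M : Type) [L.Structure M] (n : ℕ)
    (p : Set (L.Formula (Fin n ⊕ M))) : Prop :=
  (∀ φ, φ ∈ p ∨ φ.not ∈ p) ∧ ∀ s : Finset (L.Formula (Fin n ⊕ M)), (∀ φ ∈ s, φ ∈ p) →
    ∃ a : Fin n → M, ∀ φ ∈ s, φ.Realize (Sum.elim a id)

/-- The action of an automorphism on types: move the parameters. -/
def act {L : FirstOrder.Language.{0, 0}} {M : Type} [L.Structure M] {n : ℕ} (g : M ≃[L] M)
    (p : Set (L.Formula (Fin n ⊕ M))) : Set (L.Formula (Fin n ⊕ M)) :=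
  BoundedFormula.relabelEquiv (Equiv.sumCongr (Equiv.refl (Fin n)) g.toEquiv) '' p

/-- A subflow of the type space: a nonempty, invariant set of types that is closed in the Stone
topology. -/
def IsSubflow (L : FirstOrder.Language.{0, 0}) (M : Type) [L.Structure M] (n : ℕ)
    (F : Set (Set (L.Formula (Fin n ⊕ M)))) : Prop :=
  F.Nonempty ∧ (∀ p ∈ F, IsType L M n p) ∧ (∀ g : M ≃[L] M, ∀ p ∈ F, act g p ∈ F) ∧
    ∀ p, IsType L M n p → (∀ φ ∈ p, ∃ q ∈ F, φ ∈ q) → p ∈ F

/-- Fixed points on type spaces. -/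
def FPT (L : FirstOrder.Language.{0, 0}) (M : Type) [L.Structure M] : Prop :=
  ∀ n, 1 ≤ n → ∀ F, IsSubflow L M n F → ∃ p ∈ F, ∀ g : M ≃[L] M, act g p = p

section general

variable {L : FirstOrder.Language.{0, 0}} {M : Type} [L.Structure M] {n : ℕ}
  {p : Set (L.Formula (Fin n ⊕ M))}

lemma IsType.fin (h : IsType L M n p) {ι : Type} [Finite ι] (f : ι → L.Formula (Fin n ⊕ M))
    (hf : ∀ i, f i ∈ p) : ∃ a : Fin n → M, ∀ i, (f i).Realize (Sum.elim a id) := by
  classical
  have := Fintype.ofFinite ι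
  obtain ⟨a, ha⟩ := h.2 (Finset.univ.image f) (by simpa using hf)
  exact ⟨a, fun i => ha _ (by simp)⟩

lemma IsType.imp (h : IsType L M n p) {φ ψ : L.Formula (Fin n ⊕ M)} (hφ : φ ∈ p)
    (hi : ∀ a : Fin n → M, φ.Realize (Sum.elim a id) → ψ.Realize (Sum.elim a id)) : ψ ∈ p := by
  refine (h.1 ψ).resolve_right fun hn => ?_
  obtain ⟨a, ha⟩ := h.fin (fun b : Bool => cond b φ ψ.not) (fun b => by cases b <;> assumption)
  exact (Formula.realize_not.1 (ha false)) (hi a (ha true))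

def sh (g : M ≃[L] M) (φ : L.Formula (Fin n ⊕ M)) : L.Formula (Fin n ⊕ M) :=
  (BoundedFormula.relabelEquiv (Equiv.sumCongr (Equiv.refl (Fin n)) g.toEquiv)).symm φ

lemma mem_act (g : M ≃[L] M) (φ : L.Formula (Fin n ⊕ M)) : φ ∈ act g p ↔ sh g φ ∈ p :=
  Set.mem_image_equiv

lemma realize_sh (g : M ≃[L] M) (φ : L.Formula (Fin n ⊕ M)) (a : Fin n → M) (b : M → M) :
    (sh g φ).Realize (Sum.elim a b) ↔ φ.Realize (Sum.elim a (b ∘ g.symm)) := by
  have e : φ = BoundedFormula.relabelEquiv (Equiv.sumCongr (Equiv.refl (Fin n)) g.toEquiv)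
      (sh g φ) := (Equiv.apply_symm_apply _ _).symm
  conv_rhs => rw [e]
  unfold Formula.Realize
  rw [BoundedFormula.realize_relabelEquiv]
  have : (Sum.elim a (b ∘ g.symm)) ∘ (Equiv.sumCongr (Equiv.refl (Fin n)) g.toEquiv) =
      Sum.elim a b := by
    funext x
    cases x with
    | inl i => rfl
    | inr m => exact congrArg b (g.symm_apply_apply m)
  rw [this]

lemma IsType.act (h : IsType L M n p) (g : M ≃[L] M) : IsType L M n (act g p) := by
  classical
  refine ⟨fun φ => ?_, fun s hs => ?_⟩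
  · rw [mem_act, mem_act]
    refine (h.1 (sh g φ)).imp id fun h' => h.imp h' fun a => ?_
    rw [Formula.realize_not, realize_sh, realize_sh, Formula.realize_not]
    exact id
  · obtain ⟨a, ha⟩ := h.fin (fun φ : s => sh g φ.1) (fun φ => (mem_act _ _).1 (hs _ φ.2))
    refine ⟨g ∘ a, fun φ hφ => ?_⟩
    have h1 := (realize_sh _ _ _ _).1 (ha ⟨φ, hφ⟩)
    have h2 := (StrongHomClass.realize_formula g φ (v := Sum.elim a (id ∘ g.symm))).2 h1
    have : g ∘ Sum.elim a (id ∘ g.symm) = Sum.elim (g ∘ a) id := by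
      funext x
      cases x with
      | inl i => rfl
      | inr m => exact g.apply_symm_apply m
    rwa [this] at h2

end general

inductive RA : ℕ → Type
  | s (d : ℤ) : RA 2

inductive RB : ℕ → Type
  | s (d : ℤ) : RB 2
  | e : RB 2

def LA : FirstOrder.Language.{0, 0} where
  Functions _ := Empty
  Relations := RA

def LB : FirstOrder.Language.{0, 0} where
  Functions _ := Empty
  Relations := RB

def evA : {n : ℕ} → RA n → (Fin n → ℤ) → Prop
  | _, RA.s d, v => v 1 = v 0 + d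

def evB : {n : ℕ} → RB n → (Fin n → ℤ) → Prop
  | _, RB.s d, v => v 1 = v 0 + d
  | _, RB.e, v => v 0 % 2 = v 1 % 2

instance strA : LA.Structure ℤ where
  funMap f := f.elim
  RelMap r v := evA r v

instance strB : LB.Structure ℤ where
  funMap f := f.elim
  RelMap r v := evB r v

def tA (k : ℤ) : ℤ ≃[LA] ℤ where
  toEquiv := Equiv.addRight k
  map_fun' f := f.elim
  map_rel' r x := by
    cases r
    change x 1 + k = x 0 + k + _ ↔ x 1 = x 0 + _
    omega

def tB (k : ℤ) : ℤ ≃[LB] ℤ where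
  toEquiv := Equiv.addRight k
  map_fun' f := f.elim
  map_rel' r x := by
    cases r
    · change x 1 + k = x 0 + k + _ ↔ x 1 = x 0 + _
      omega
    · change (x 0 + k) % 2 = (x 1 + k) % 2 ↔ x 0 % 2 = x 1 % 2
      omega

lemma autA (g : ℤ ≃[LA] ℤ) (x : ℤ) : g x = x + g 0 := by
  have h : g x = g 0 + x := (g.map_rel (RA.s x : LA.Relations 2) ![0, x]).2
    (show x = 0 + x by omega)
  omega

lemma autB (g : ℤ ≃[LB] ℤ) (x : ℤ) : g x = x + g 0 := by
  have h : g x = g 0 + x := (g.map_rel (RB.s x : LB.Relations 2) ![0, x]).2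
    (show x = 0 + x by omega)
  omega

lemma fraisseA : IsFraisseStr LA ℤ := by
  refine ⟨fun _ => (inferInstance : IsEmpty Empty), ?_, inferInstance, inferInstance,
    fun S _ f => ?_⟩
  · refine Function.Surjective.countable (f := fun d : ℤ => (⟨2, RA.s d⟩ : Σ n, LA.Relations n)) ?_
    rintro ⟨_, ⟨d⟩⟩
    exact ⟨d, rfl⟩
  · by_cases h : Nonempty S
    · obtain ⟨c⟩ := h
      refine ⟨tA (f c - c), ?_⟩
      ext x
      have h : f x = f c + (x - c) := (f.map_rel (RA.s (x - c) : LA.Relations 2) ![c, x]).2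
        (show (x : ℤ) = c + (x - c) by omega)
      change f x = x + (f c - c)
      omega
    · exact ⟨tA 0, by ext x; exact absurd ⟨x⟩ h⟩

lemma fraisseB : IsFraisseStr LB ℤ := by
  refine ⟨fun _ => (inferInstance : IsEmpty Empty), ?_, inferInstance, inferInstance,
    fun S _ f => ?_⟩
  · refine Function.Surjective.countable (f := fun d : Option ℤ =>
      (⟨2, d.elim RB.e RB.s⟩ : Σ n, LB.Relations n)) ?_
    rintro ⟨_, _ | _⟩
    · exact ⟨some _, rfl⟩
    · exact ⟨none, rfl⟩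
  · by_cases h : Nonempty S
    · obtain ⟨c⟩ := h
      refine ⟨tB (f c - c), ?_⟩
      ext x
      have h : f x = f c + (x - c) := (f.map_rel (RB.s (x - c) : LB.Relations 2) ![c, x]).2
        (show (x : ℤ) = c + (x - c) by omega)
      change f x = x + (f c - c)
      omega
    · exact ⟨tB 0, by ext x; exact absurd ⟨x⟩ h⟩

lemma not_fptB : ¬ FPT LB ℤ := by
  intro h
  obtain ⟨p, hp, hfix⟩ := h 1 le_rfl {p | IsType LB ℤ 1 p} ⟨⟨{φ | φ.Realize (Sum.elim ![0] id)},
    fun φ => by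
      simp only [Set.mem_ofPred_eq, Formula.realize_not]
      exact em _, fun s hs => ⟨![0], hs⟩⟩, fun _ h => h, fun g _ h => IsType.act h g,
    fun _ h _ => h⟩
  let φ : LB.Formula (Fin 1 ⊕ ℤ) :=
    Relations.formula₂ (RB.e : LB.Relations 2) (Term.var (Sum.inl 0)) (Term.var (Sum.inr 0))
  have hφ : ∀ (a : Fin 1 → ℤ) (b : ℤ → ℤ), φ.Realize (Sum.elim a b) ↔ a 0 % 2 = b 0 % 2 := by
    intro a b
    rw [Formula.realize_rel₂]
    rfl
  have e : (tB 1).symm 0 = -1 := rfl
  have key : ∀ ψ ∈ p, ∃ a : Fin 1 → ℤ, ψ.Realize (Sum.elim a id) ∧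
      ψ.Realize (Sum.elim a (id ∘ (tB 1).symm)) := by
    intro ψ hψ
    have h2 : sh (tB 1) ψ ∈ p := (mem_act _ _).1 ((hfix (tB 1)).symm ▸ hψ)
    obtain ⟨a, ha⟩ := IsType.fin hp (fun b : Bool => cond b ψ (sh (tB 1) ψ))
      (fun b => by cases b <;> assumption)
    exact ⟨a, ha true, (realize_sh _ _ _ _).1 (ha false)⟩
  rcases hp.1 φ with h | h
  · obtain ⟨a, h1, h2⟩ := key _ h
    rw [hφ] at h1 h2
    simp only [Function.comp_apply, id, e] at h1 h2
    omega
  · obtain ⟨a, h1, h2⟩ := key _ h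
    rw [Formula.realize_not, hφ] at h1 h2
    simp only [Function.comp_apply, id, e] at h1 h2
    omega

def Sim {α : Type} {k : ℕ} (N : ℤ) (S : Finset α) (V W : α ⊕ Fin k → ℤ) : Prop :=
  ∀ i j, (∀ a, i = Sum.inl a → a ∈ S) → (∀ a, j = Sum.inl a → a ∈ S) →
    ∀ d, |d| ≤ N → (V i - V j = d ↔ W i - W j = d)

lemma Sim.symm {α : Type} {k : ℕ} {N : ℤ} {S : Finset α} {V W : α ⊕ Fin k → ℤ}
    (h : Sim N S V W) : Sim N S W V := fun i j hi hj d hd => (h i j hi hj d hd).symm

lemma Sim.mono {α : Type} {k : ℕ} {N N' : ℤ} {S S' : Finset α} {V W : α ⊕ Fin k → ℤ}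
    (h : Sim N S V W) (hN : N' ≤ N) (hS : S' ⊆ S) : Sim N' S' V W :=
  fun i j hi hj d hd => h i j (fun a e => hS (hi a e)) (fun a e => hS (hj a e)) d (hd.trans hN)

lemma Sim.ext {α : Type} {k : ℕ} {N : ℤ} {S : Finset α} {v w : α → ℤ} {xs ys : Fin k → ℤ}
    (h : Sim (2 * N) S (Sum.elim v xs) (Sum.elim w ys)) (x : ℤ) :
    ∃ y, Sim N S (Sum.elim v (Fin.snoc xs x : Fin (k + 1) → ℤ))
      (Sum.elim w (Fin.snoc ys y : Fin (k + 1) → ℤ)) := by
  classical
  set V := Sum.elim v xs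
  set W := Sum.elim w ys
  obtain ⟨y, hy⟩ : ∃ y, ∀ j : α ⊕ Fin k, (∀ a, j = Sum.inl a → a ∈ S) → ∀ d, |d| ≤ N →
      (x - V j = d ↔ y - W j = d) := by
    by_cases hx : ∃ i : α ⊕ Fin k, (∀ a, i = Sum.inl a → a ∈ S) ∧ |x - V i| ≤ N
    · obtain ⟨i, hi, hx⟩ := hx
      refine ⟨W i + (x - V i), fun j hj d hd => ?_⟩
      have := h i j hi hj (d - (x - V i)) (by
        rw [abs_le] at *
        omega)
      omega
    · push Not at hx
      obtain ⟨B, hB⟩ := ((S.image Sum.inl ∪ Finset.univ.image Sum.inr).image W).bddAbove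
      refine ⟨B + |N| + 1, fun j hj d hd => ?_⟩
      have h1 := hx j hj
      have h2 : W j ≤ B := hB (by
        cases j with
        | inl a => simpa using Or.inl ⟨a, hj a rfl, rfl⟩
        | inr b => simp)
      have h3 := le_abs_self N
      constructor
      · rintro rfl
        omega
      · rintro rfl
        rw [abs_le] at hd
        omega
  have old : ∀ (u : α → ℤ) (zs : Fin k → ℤ) (z : ℤ) (j : α ⊕ Fin k),
      Sum.elim u (Fin.snoc zs z : Fin (k + 1) → ℤ) (Sum.map id Fin.castSucc j) =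
        Sum.elim u zs j := by
    intro u zs z j
    cases j <;> simp
  have cs : ∀ i : α ⊕ Fin (k + 1), i = Sum.inr (Fin.last k) ∨
      ∃ j, i = Sum.map id Fin.castSucc j := by
    intro i
    cases i with
    | inl a => exact Or.inr ⟨Sum.inl a, rfl⟩
    | inr b =>
      refine Fin.lastCases (Or.inl rfl) (fun b => Or.inr ⟨Sum.inr b, rfl⟩) b
  have hs : ∀ j : α ⊕ Fin k, (∀ a, Sum.map id Fin.castSucc j = Sum.inl a → a ∈ S) →
      ∀ a, j = Sum.inl a → a ∈ S := by
    rintro j hj a rfl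
    exact hj a rfl
  refine ⟨y, fun i j hi hj d hd => ?_⟩
  rcases cs i with rfl | ⟨i, rfl⟩ <;> rcases cs j with rfl | ⟨j, rfl⟩
  · simp
  · rw [old, old]
    simpa using hy j (hs j hj) d hd
  · rw [old, old]
    have := hy i (hs i hi) (-d) (by rwa [abs_neg])
    simp only [Sum.elim_inr, Fin.snoc_last]
    change V i - x = d ↔ W i - y = d
    omega
  · rw [old, old, old, old]
    have h0 := abs_nonneg d
    exact h i j (hs i hi) (hs j hj) d (by omega)

lemma term_var {β : Type} (t : LA.Term β) : ∃ i, t = Term.var i := by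
  cases t with
  | var i => exact ⟨i, rfl⟩
  | func f _ => exact f.elim

lemma supp {α : Type} {k : ℕ} (i j : α ⊕ Fin k) : ∃ S : Finset α,
    (∀ a, i = Sum.inl a → a ∈ S) ∧ ∀ a, j = Sum.inl a → a ∈ S := by
  classical
  refine ⟨i.getLeft?.toFinset ∪ j.getLeft?.toFinset, ?_, ?_⟩ <;> rintro a rfl <;> simp

lemma ef {α : Type} {k : ℕ} (φ : LA.BoundedFormula α k) : ∃ (N : ℤ) (S : Finset α),
    ∀ (v w : α → ℤ) (xs ys : Fin k → ℤ), Sim N S (Sum.elim v xs) (Sum.elim w ys) →
      (φ.Realize v xs ↔ φ.Realize w ys) := by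
  classical
  induction φ with
  | falsum => exact ⟨0, ∅, fun _ _ _ _ _ => Iff.rfl⟩
  | equal t₁ t₂ =>
    obtain ⟨i, rfl⟩ := term_var t₁
    obtain ⟨j, rfl⟩ := term_var t₂
    obtain ⟨S, h1, h2⟩ := supp i j
    refine ⟨0, S, fun v w xs ys h => ?_⟩
    have := h i j h1 h2 0 (by simp)
    change Sum.elim v xs i = Sum.elim v xs j ↔ Sum.elim w ys i = Sum.elim w ys j
    omega
  | rel r ts =>
    cases r with
    | s d =>
    obtain ⟨i, hi⟩ := term_var (ts 0)
    obtain ⟨j, hj⟩ := term_var (ts 1)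
    obtain ⟨S, h1, h2⟩ := supp i j
    refine ⟨|d|, S, fun v w xs ys h => ?_⟩
    have := h j i h2 h1 d le_rfl
    change (ts 1).realize (Sum.elim v xs) = (ts 0).realize (Sum.elim v xs) + d ↔
      (ts 1).realize (Sum.elim w ys) = (ts 0).realize (Sum.elim w ys) + d
    rw [hi, hj]
    simp only [Term.realize_var]
    omega
  | imp f g ihf ihg =>
    obtain ⟨N, S, h1⟩ := ihf
    obtain ⟨N', S', h2⟩ := ihg
    refine ⟨max N N', S ∪ S', fun v w xs ys h => ?_⟩
    rw [BoundedFormula.realize_imp, BoundedFormula.realize_imp,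
      h1 v w xs ys (h.mono (le_max_left _ _) Finset.subset_union_left),
      h2 v w xs ys (h.mono (le_max_right _ _) Finset.subset_union_right)]
  | all f ih =>
    obtain ⟨N, S, h1⟩ := ih
    refine ⟨2 * N, S, fun v w xs ys h => ?_⟩
    rw [BoundedFormula.realize_all, BoundedFormula.realize_all]
    constructor
    · intro hh y
      obtain ⟨x, hx⟩ := h.symm.ext y
      exact (h1 _ _ _ _ hx).2 (hh x)
    · intro hh x
      obtain ⟨y, hy⟩ := h.ext x
      exact (h1 _ _ _ _ hy).2 (hh y)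

lemma stab {n : ℕ} {p : Set (LA.Formula (Fin n ⊕ ℤ))} (hp : IsType LA ℤ n p)
    (φ : LA.Formula (Fin n ⊕ ℤ)) :
    ∃ K : ℤ, ∀ k k', K ≤ k → K ≤ k' → sh (tA k) φ ∈ p → sh (tA k') φ ∈ p := by
  classical
  obtain ⟨N, S, hφ⟩ := ef φ
  let at' : Fin n → ℤ → LA.Formula (Fin n ⊕ ℤ) := fun i m =>
    Term.equal (Term.var (Sum.inl i)) (Term.var (Sum.inr m))
  have h1 : ∀ i, ∃ B : ℤ, ∀ m < B, (at' i m).not ∈ p := by
    intro i
    by_cases h : ∃ m, at' i m ∈ p
    · obtain ⟨m, hm⟩ := h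
      refine ⟨m, fun m' hm' => hp.imp hm fun a ha => ?_⟩
      simp only [at', Formula.realize_equal, Formula.realize_not, Term.realize_var, Sum.elim_inl,
        Sum.elim_inr, id] at ha ⊢
      omega
    · exact ⟨0, fun m _ => (hp.1 _).resolve_left fun hm => h ⟨m, hm⟩⟩
  choose B hB using h1
  obtain ⟨C, hC⟩ := (Finset.univ.image fun i => -B i).bddAbove
  obtain ⟨D, hD⟩ := (S.image (Sum.elim (fun _ => 0) id : Fin n ⊕ ℤ → ℤ)).bddAbove
  have hC' : ∀ i, -B i ≤ C := fun i => hC (by simp)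
  have hD' : ∀ b, Sum.inr b ∈ S → b ≤ D := fun b hb => hD (by simpa using Or.inr hb)
  refine ⟨C + D + N + 1, fun k k' hk hk' h => (hp.1 _).resolve_right fun h' => ?_⟩
  have hfin : Finite {b : ℤ // Sum.inr b ∈ S} :=
    (S.finite_toSet.preimage Sum.inr_injective.injOn).to_subtype
  obtain ⟨a, ha⟩ := hp.fin (ι := Bool ⊕ (Bool × Fin n × {b : ℤ // Sum.inr b ∈ S} ×
      Finset.Icc (-N) N))
    (Sum.elim (fun b => cond b (sh (tA k) φ) (sh (tA k') φ).not)
      fun t => (at' t.2.1 (t.2.2.1 - cond t.1 k k' + t.2.2.2)).not) (by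
      rintro (b | ⟨b, i, c, d⟩)
      · cases b <;> assumption
      · refine hB i _ ?_
        have := hC' i
        have := hD' _ c.2
        have := (Finset.mem_Icc.1 d.2).2
        cases b <;> simp only [cond] <;> omega)
  have r1 := (realize_sh _ _ _ _).1 (ha (Sum.inl true))
  have r2 := Formula.realize_not.1 (ha (Sum.inl false))
  refine r2 ((realize_sh _ _ _ _).2 ((hφ _ _ _ _ ?_).1 r1))
  have far : ∀ (b : Bool) i c, Sum.inr c ∈ S → ∀ d, |d| ≤ N → a i ≠ c - cond b k k' + d := by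
    intro b i c hc d hd
    have := ha (Sum.inr ⟨b, i, ⟨c, hc⟩, ⟨d, Finset.mem_Icc.2 (abs_le.1 hd)⟩⟩)
    simpa [at'] using this
  have e : ∀ j c : ℤ, (tA j).symm c = c + -j := fun _ _ => rfl
  rintro (i | i) (j | j) hi hj d hd
  · have hd' : |-d| ≤ N := by rwa [abs_neg]
    rcases i with i | i <;> rcases j with j | j <;>
      simp only [Sum.elim_inl, Sum.elim_inr, Function.comp_apply, id, e]
    · have h1 := far true i j (hj _ rfl) d hd
      have h2 := far false i j (hj _ rfl) d hd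
      simp only [cond] at h1 h2
      omega
    · have h1 := far true j i (hi _ rfl) _ hd'
      have h2 := far false j i (hi _ rfl) _ hd'
      simp only [cond] at h1 h2
      omega
    · omega
  · exact j.elim0
  · exact i.elim0
  · exact i.elim0

lemma fptA : FPT LA ℤ := by
  rintro n - F ⟨⟨p, hpF⟩, h1, h2, h3⟩
  have hp := h1 p hpF
  have hq : IsType LA ℤ n {φ | ∀ᶠ k in atTop, φ ∈ act (tA k) p} := by
    refine ⟨fun φ => ?_, fun s hs => ?_⟩
    · obtain ⟨K, hK⟩ := stab hp φ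
      by_cases h : φ ∈ act (tA K) p
      · exact Or.inl (eventually_atTop.2 ⟨K, fun k hk =>
          (mem_act _ _).2 (hK K k le_rfl hk ((mem_act _ _).1 h))⟩)
      · refine Or.inr (eventually_atTop.2 ⟨K, fun k hk => ((hp.act _).1 φ).resolve_left ?_⟩)
        exact fun h' => h ((mem_act _ _).2 (hK k K hk le_rfl ((mem_act _ _).1 h')))
    · obtain ⟨k, hk⟩ := ((eventually_all_finset s).2 hs).exists
      exact (hp.act (tA k)).2 s hk
  refine ⟨_, h3 _ hq fun φ hφ => ?_, fun g => ?_⟩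
  · obtain ⟨k, hk⟩ := Eventually.exists hφ
    exact ⟨_, h2 _ p hpF, hk⟩
  · have key : ∀ φ k, sh (tA k) (sh g φ) ∈ p ↔ sh (tA (k + g 0)) φ ∈ p := by
      intro φ k
      have : (id ∘ (tA k).symm) ∘ g.symm = id ∘ (tA (k + g 0)).symm := by
        funext c
        have := autA g (g.symm c)
        rw [g.apply_symm_apply] at this
        change g.symm c + -k = c + -(k + g 0)
        omega
      constructor <;> intro h <;> refine hp.imp h fun a => ?_ <;>
        rw [realize_sh, realize_sh, realize_sh, this] <;> exact id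
    ext φ
    rw [mem_act]
    simp only [Set.mem_ofPred_eq, mem_act, key, eventually_atTop]
    constructor
    · rintro ⟨K, hK⟩
      exact ⟨K + g 0, fun k hk => by simpa using hK (k - g 0) (by omega)⟩
    · rintro ⟨K, hK⟩
      exact ⟨K - g 0, fun k hk => hK _ (by omega)⟩

theorem result : ∃ (M : Type) (L L' : FirstOrder.Language.{0, 0}) (_ : L.Structure M)
    (_ : L'.Structure M), IsFraisseStr L M ∧ IsFraisseStr L' M ∧
    (∀ σ : M → M, (∃ g : M ≃[L] M, ∀ x, g x = σ x) ↔ ∃ g : M ≃[L'] M, ∀ x, g x = σ x) ∧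
    FPT L M ∧ ¬ FPT L' M := by
  refine ⟨ℤ, LA, LB, strA, strB, fraisseA, fraisseB, fun σ => ⟨?_, ?_⟩, fptA, not_fptB⟩
  · rintro ⟨g, hg⟩
    exact ⟨tB (g 0), fun x => (autA g x).symm.trans (hg x)⟩
  · rintro ⟨g, hg⟩
    exact ⟨tA (g 0), fun x => (autB g x).symm.trans (hg x)⟩

end Pool.Agent.Results.MP_970e84_lc.NotDetermined
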